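import Mathlib

/-!
# Realizing infinity-delta sets of numerical semigroups (MP_86b878_co, negated form)

For every numerical semigroup `S ≠ ℕ` the set `Δ_∞(S)` contains an element `≥ 3`; hence no
finite set `D ⊆ {1, 2}` with `1 ∈ D` is an infinity-delta set.
-/

open Finset

namespace Pool.Agent.Results.MP_86b878_co.NotAllDeltaSets

/-- `a` is a minimal generator of `S`: a nonzero element which is not a sum of two nonzero
elements of `S`. -/
def IsMinGen (S : AddSubmonoid ℕ) (a : ℕ) : Prop :=
  a ∈ S ∧ a ≠ 0 ∧ ∀ b ∈ S, ∀ c ∈ S, b + c = a → b = 0 ∨ c = 0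

/-- `z` is a factorization of `x`: `z a` is the multiplicity of the minimal generator `a`. -/
def IsFact (S : AddSubmonoid ℕ) (x : ℕ) (z : ℕ →₀ ℕ) : Prop :=
  (∀ a ∈ z.support, IsMinGen S a) ∧ z.sum (fun a n => n * a) = x

/-- `ℓ_0(z)`, the size of the support. -/
def l0 (z : ℕ →₀ ℕ) : ℕ := z.support.card

/-- `ℓ_∞(z)`, the largest multiplicity. -/
def linf (z : ℕ →₀ ℕ) : ℕ := z.support.sup z

/-- The delta set of `S` for the length function `l`: all differences of consecutive elements
of the sets `{l z : z a factorization of x}`, `x ∈ S`. -/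
def Delta (l : (ℕ →₀ ℕ) → ℕ) (S : AddSubmonoid ℕ) : Set ℕ :=
  {d | 0 < d ∧ ∃ x ∈ S, ∃ c, (∃ z, IsFact S x z ∧ l z = c) ∧ (∃ z, IsFact S x z ∧ l z = c + d) ∧
    ∀ j, c < j → j < c + d → ¬ ∃ z, IsFact S x z ∧ l z = j}

/-- `S` is a numerical semigroup. -/
def IsNumSemi (S : AddSubmonoid ℕ) : Prop := ((S : Set ℕ)ᶜ).Finite

theorem linf_le_iff {z : ℕ →₀ ℕ} {n : ℕ} : linf z ≤ n ↔ ∀ a, z a ≤ n := by
  unfold linf
  rw [Finset.sup_le_iff]
  constructor
  · intro h a
    by_cases ha : a ∈ z.support
    · exact h a ha
    · rw [Finsupp.notMem_support_iff.1 ha]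
      exact Nat.zero_le n
  · intro h a _
    exact h a

theorem exists_multiplicity {S : AddSubmonoid ℕ} (hS : IsNumSemi S) (hne : S ≠ ⊤) :
    ∃ m a : ℕ, 2 ≤ m ∧ m < a ∧ IsMinGen S m ∧ IsMinGen S a ∧ ∀ b, IsMinGen S b → b ≠ m → m < b := by
  classical
  -- there is a positive element
  have hinf : ∃ n, n ∈ S ∧ n ≠ 0 := by
    by_contra hcon
    push Not at hcon
    apply Set.infinite_univ (α := ℕ)
    refine (hS.union (Set.finite_singleton 0)).subset ?_
    intro x _
    by_cases hx : x ∈ S
    · exact Or.inr (hcon x hx)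
    · exact Or.inl hx
  set m := Nat.find hinf with hm
  obtain ⟨hmS, hm0⟩ := Nat.find_spec hinf
  have hmin : ∀ b ∈ S, b ≠ 0 → m ≤ b := fun b hb hb0 => Nat.find_min' hinf ⟨hb, hb0⟩
  have hm2 : 2 ≤ m := by
    by_contra hcon
    have h1 : m = 1 := by omega
    apply hne
    rw [eq_top_iff]
    intro x _
    have : x • (1 : ℕ) ∈ S := S.nsmul_mem (h1 ▸ hmS) x
    simpa using this
  have hgm : IsMinGen S m := by
    refine ⟨hmS, hm0, fun b hb c hc hbc => ?_⟩
    by_contra hcon
    push Not at hcon
    have h1 := hmin b hb hcon.1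
    have h2 := hmin c hc hcon.2
    omega
  -- there is an element of S not divisible by m
  have hnd : ∃ n, n ∈ S ∧ ¬ m ∣ n := by
    by_contra hcon
    push Not at hcon
    have : (Set.range (fun k : ℕ => m * k + 1)).Infinite := by
      apply Set.infinite_range_of_injective
      intro a b hab
      have : m * a + 1 = m * b + 1 := hab
      exact Nat.eq_of_mul_eq_mul_left (by omega : 0 < m) (by omega)
    apply this
    refine hS.subset ?_
    rintro _ ⟨k, rfl⟩ hk
    have h1 := hcon _ hk
    have h2 : m ∣ 1 := (Nat.dvd_add_right (Dvd.intro k rfl)).1 h1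
    have := Nat.le_of_dvd one_pos h2
    omega
  set a := Nat.find hnd with ha
  obtain ⟨haS, had⟩ := Nat.find_spec hnd
  have ha0 : a ≠ 0 := by
    intro h
    apply had
    rw [← ha, h]
    exact dvd_zero m
  have hamin : ∀ b ∈ S, b < a → m ∣ b := by
    intro b hb hlt
    by_contra hcon
    exact Nat.find_min hnd hlt ⟨hb, hcon⟩
  have hga : IsMinGen S a := by
    refine ⟨haS, ha0, fun b hb c hc hbc => ?_⟩
    by_contra hcon
    push Not at hcon
    apply had
    rw [← ha, ← hbc]
    exact dvd_add (hamin b hb (by omega)) (hamin c hc (by omega))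
  refine ⟨m, a, hm2, ?_, hgm, hga, ?_⟩
  · rcases lt_or_eq_of_le (hmin a haS ha0) with h | h
    · exact h
    · exfalso
      apply had
      rw [← ha, ← h]
  · intro b hb hbm
    exact lt_of_le_of_ne (hmin b hb.1 hb.2.1) (Ne.symm hbm)

/-- Any factorization of `n m` other than `n` copies of `m` has `ℓ_∞ ≤ n - 3`. -/
theorem others_le {S : AddSubmonoid ℕ} {m n : ℕ} (hm2 : 2 ≤ m) (hgm : IsMinGen S m)
    (hmin : ∀ b, IsMinGen S b → b ≠ m → m < b) (hn : 3 * (m + 1) ≤ n) {z : ℕ →₀ ℕ}
    (hz : IsFact S (n * m) z) : z m = n ∨ linf z + 3 ≤ n := by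
  classical
  obtain ⟨hz1, hz2⟩ := hz
  -- split off the coordinate m
  set w := z.erase m with hw
  have hsplit : z m * m + w.sum (fun a n => n * a) = n * m := by
    rw [← hz2]
    have h := Finsupp.add_sum_erase' z m (fun a n => n * a) (by simp)
    rw [← h]
  have hwgen : ∀ a ∈ w.support, IsMinGen S a ∧ a ≠ m := by
    intro a ha
    rw [hw, Finsupp.support_erase, Finset.mem_erase] at ha
    exact ⟨hz1 a ha.2, ha.1⟩
  have hwS : w.sum (fun a n => n * a) ∈ S := by
    unfold Finsupp.sum
    apply AddSubmonoid.sum_mem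
    intro a ha
    have := S.nsmul_mem (hwgen a ha).1.1 (w a)
    simpa [smul_eq_mul] using this
  -- the cardinality of the rest
  set c := w.sum (fun _ n => n) with hc
  have hcle : c * (m + 1) ≤ w.sum (fun a n => n * a) := by
    rw [hc]
    unfold Finsupp.sum
    rw [Finset.sum_mul]
    apply Finset.sum_le_sum
    intro a ha
    exact Nat.mul_le_mul_left _ (hmin a (hwgen a ha).1 (hwgen a ha).2)
  have hzm : z m ≤ n := by
    have : z m * m ≤ n * m := by omega
    exact Nat.le_of_mul_le_mul_right this (by omega)
  obtain ⟨j, hj⟩ := Nat.exists_eq_add_of_le hzm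
  have hwj : w.sum (fun a n => n * a) = j * m := by
    rw [hj, Nat.add_mul] at hsplit
    omega
  rcases Nat.eq_zero_or_pos j with hj0 | hjpos
  · left; omega
  right
  -- c ≥ 2
  have hc2 : 2 ≤ c := by
    by_contra hcon
    have hc' : c = 0 ∨ c = 1 := by omega
    rcases hc' with h0 | h1
    · have hw0 : w = 0 := by
        ext a
        by_contra hne
        have ha : a ∈ w.support := Finsupp.mem_support_iff.2 hne
        have h2 : w a ≤ c := by
          rw [hc]
          exact Finset.single_le_sum (f := fun a => w a) (fun _ _ => Nat.zero_le _) ha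
        have : w a = 0 := by omega
        exact hne (by simpa using this)
      rw [hw0] at hwj
      simp only [Finsupp.sum_zero_index] at hwj
      have : 0 < j * m := Nat.mul_pos hjpos (by omega)
      omega
    · -- single generator
      have hex : ∃ a, a ∈ w.support := by
        by_contra hcon2
        push Not at hcon2
        have : w.support = ∅ := Finset.eq_empty_of_forall_notMem hcon2
        rw [hc] at h1
        unfold Finsupp.sum at h1
        rw [this] at h1
        simp at h1
      obtain ⟨a, ha⟩ := hex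
      have hsum : w.sum (fun a n => n * a) = a := by
        have h2 : w = Finsupp.single a 1 := by
          have h3 : w a ≤ c := Finset.single_le_sum (f := fun a => w a)
            (fun _ _ => Nat.zero_le _) ha
          have h4 : w a ≠ 0 := Finsupp.mem_support_iff.1 ha
          have h5 : w a = 1 := by omega
          have h6 := Finsupp.add_sum_erase' w a (fun _ n => n) (by simp)
          rw [← hc] at h6
          have h7 : (w.erase a).sum (fun _ n => n) = 0 := by omega
          ext b
          by_cases hb : b = a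
          · rw [hb, h5]; simp
          · rw [Finsupp.single_eq_of_ne hb]
            by_contra hne
            have hb' : b ∈ (w.erase a).support := by
              rw [Finsupp.support_erase, Finset.mem_erase]
              exact ⟨hb, Finsupp.mem_support_iff.2 hne⟩
            have h8 : (w.erase a) b ≤ (w.erase a).sum (fun _ n => n) :=
              Finset.single_le_sum (f := fun b => (w.erase a) b) (fun _ _ => Nat.zero_le _) hb'
            rw [Finsupp.erase_ne hb] at h8
            omega
        rw [h2]
        simp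
      obtain ⟨hga, ham⟩ := hwgen a ha
      rw [hsum] at hwj
      -- a = j m
      have hj2 : 2 ≤ j := by
        by_contra hcon2
        have : j = 1 := by omega
        rw [this, one_mul] at hwj
        exact ham hwj
      have h9 := hga.2.2 m hgm.1 ((j - 1) * m)
        (by have := S.nsmul_mem hgm.1 (j - 1); simpa [smul_eq_mul] using this)
        (by
          rw [hwj]
          obtain ⟨i, rfl⟩ : ∃ i, j = i + 1 := ⟨j - 1, by omega⟩
          rw [Nat.add_sub_cancel]
          ring)
      rcases h9 with h | h
      · omega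
      · have : 0 < (j - 1) * m := Nat.mul_pos (by omega) (by omega)
        omega
  have hj3 : 3 ≤ j := by
    by_contra hcon
    have h1 : j ≤ 2 := by omega
    have h2 : j * m ≤ 2 * m := Nat.mul_le_mul_right m h1
    have h3 : 2 * (m + 1) ≤ c * (m + 1) := Nat.mul_le_mul_right _ hc2
    omega
  -- bound all coordinates
  have hall : ∀ a, z a ≤ n - 3 := by
    intro a
    by_cases ham : a = m
    · rw [ham]; omega
    · by_cases ha : a ∈ z.support
      · have hma := hmin a (hz1 a ha) ham
        have h1 : z a * a ≤ n * m := by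
          rw [← hz2]
          exact Finset.single_le_sum (f := fun a => z a * a) (fun _ _ => Nat.zero_le _) ha
        have h2 : z a * (m + 1) ≤ n * m := le_trans (Nat.mul_le_mul_left _ hma) h1
        by_contra hcon
        have h3 : n - 2 ≤ z a := by omega
        have h4 : (n - 2) * (m + 1) ≤ n * m := le_trans (Nat.mul_le_mul_right _ h3) h2
        obtain ⟨k, hk⟩ := Nat.exists_eq_add_of_le hn
        have h5 : n - 2 = 3 * (m + 1) + k - 2 := by omega
        have h6 : (n - 2) * (m + 1) = n * (m + 1) - 2 * (m + 1) := Nat.sub_mul _ _ _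
        have h7 : n * (m + 1) = n * m + n := by ring
        omega
      · rw [Finsupp.notMem_support_iff.1 ha]
        exact Nat.zero_le _
  have := linf_le_iff.2 hall
  omega

/-- For every numerical semigroup `S ≠ ℕ`, the set `Δ_∞(S)` contains an element `≥ 3`. -/
theorem exists_three_le {S : AddSubmonoid ℕ} (hS : IsNumSemi S) (hne : S ≠ ⊤) :
    ∃ d ∈ Delta linf S, 3 ≤ d := by
  classical
  obtain ⟨m, a, hm2, hma, hgm, hga, hmin⟩ := exists_multiplicity hS hne
  set t := 3 * (m + 1) with ht
  set n := t * a with hn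
  have hn3 : 3 * (m + 1) ≤ n := by
    rw [hn, ← ht]
    exact Nat.le_mul_of_pos_right t (by omega)
  set L : Set ℕ := {v | ∃ z, IsFact S (n * m) z ∧ linf z = v} with hL
  -- the top value
  have htop : IsFact S (n * m) (Finsupp.single m n) := by
    refine ⟨?_, by simp⟩
    intro b hb
    have := Finsupp.support_single_subset hb
    rw [Finset.mem_singleton] at this
    rw [this]
    exact hgm
  have hnpos : 0 < n := by
    have : 0 < 3 * (m + 1) := by omega
    omega
  have hltop : linf (Finsupp.single m n) = n := by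
    unfold linf
    rw [Finsupp.support_single_ne_zero _ hnpos.ne']
    simp
  -- another value
  have hoth : IsFact S (n * m) (Finsupp.single a (t * m)) := by
    refine ⟨?_, ?_⟩
    · intro b hb
      have := Finsupp.support_single_subset hb
      rw [Finset.mem_singleton] at this
      rw [this]
      exact hga
    · rw [Finsupp.sum_single_index (by simp), hn]
      ring
  -- the set of other values
  have hzeq : ∀ z, IsFact S (n * m) z → z m = n → linf z = n := by
    intro z hz hzm
    apply le_antisymm
    · rw [linf_le_iff]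
      intro b
      by_cases hb : b = m
      · rw [hb, hzm]
      · by_cases hbs : b ∈ z.support
        · exfalso
          have h1 : z m * m + z b * b ≤ n * m := by
            rw [← hz.2]
            unfold Finsupp.sum
            have h2 : ({m, b} : Finset ℕ) ⊆ z.support := by
              intro x hx
              rcases Finset.mem_insert.1 hx with h | h
              · rw [h, Finsupp.mem_support_iff, hzm]; omega
              · rw [Finset.mem_singleton] at h; rw [h]; exact hbs
            have h3 := Finset.sum_le_sum_of_subset (f := fun a => z a * a) h2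
            rw [Finset.sum_pair (Ne.symm hb)] at h3
            exact h3
          rw [hzm] at h1
          have h4 : 0 < z b := Nat.pos_of_ne_zero (Finsupp.mem_support_iff.1 hbs)
          have h5 : 0 < b := Nat.pos_of_ne_zero (hz.1 b hbs).2.1
          have := Nat.mul_pos h4 h5
          omega
        · rw [Finsupp.notMem_support_iff.1 hbs]
          exact Nat.zero_le _
    · rw [← hzm]
      exact Finset.le_sup (f := z) (Finsupp.mem_support_iff.2 (by omega))
  have hval : ∀ v ∈ L, v = n ∨ v + 3 ≤ n := by
    rintro v ⟨z, hz, rfl⟩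
    rcases others_le hm2 hgm hmin hn3 hz with h | h
    · exact Or.inl (hzeq z hz h)
    · exact Or.inr h
  -- second largest value
  have hex : ∃ v, v ∈ L ∧ v ≠ n := by
    refine ⟨linf (Finsupp.single a (t * m)), ⟨_, hoth, rfl⟩, ?_⟩
    intro h
    have h1 : linf (Finsupp.single a (t * m)) ≤ t * m := by
      rw [linf_le_iff]
      intro b
      by_cases hb : b = a
      · rw [hb]; simp
      · rw [Finsupp.single_eq_of_ne hb]; exact Nat.zero_le _
    have h2 : t * m < t * a := Nat.mul_lt_mul_of_pos_left hma (by omega)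
    omega
  have hP : ∃ v, (v ∈ L ∧ v ≠ n) ∧ ∀ v', v' ∈ L ∧ v' ≠ n → v' ≤ v := by
    have hbdd : ∀ v, v ∈ L ∧ v ≠ n → v ≤ n := by
      rintro v ⟨hv, hvn⟩
      rcases hval v hv with h | h <;> omega
    obtain ⟨v0, hv0⟩ := hex
    have hfin : {v | v ∈ L ∧ v ≠ n}.Finite := (Set.finite_Iic n).subset hbdd
    obtain ⟨v, hv, hvmax⟩ := Set.exists_max_image _ id hfin ⟨v0, hv0⟩
    exact ⟨v, hv, hvmax⟩
  obtain ⟨v, ⟨hvL, hvn⟩, hvmax⟩ := hP
  have hv3 : v + 3 ≤ n := by
    rcases hval v hvL with h | h
    · exact absurd h hvn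
    · exact h
  refine ⟨n - v, ⟨by omega, n * m, ?_, v, hvL, ?_, ?_⟩, by omega⟩
  · have := S.nsmul_mem hgm.1 n
    simpa [smul_eq_mul] using this
  · refine ⟨_, htop, ?_⟩
    rw [hltop]
    omega
  · intro j hj1 hj2 hj
    have := hvmax j ⟨hj, by omega⟩
    omega

/-- `Δ_∞(ℕ)` is empty. -/
theorem delta_top : Delta linf ⊤ = ∅ := by
  ext d
  simp only [Set.mem_empty_iff_false, iff_false]
  rintro ⟨hd, x, _, c, ⟨z, hz, hzc⟩, ⟨w, hw, hwc⟩, _⟩
  have hone : ∀ a, IsMinGen (⊤ : AddSubmonoid ℕ) a → a = 1 := by
    intro a ha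
    by_contra hne
    have h0 := ha.2.1
    have := ha.2.2 1 trivial (a - 1) trivial (by omega)
    omega
  have huniq : ∀ z, IsFact (⊤ : AddSubmonoid ℕ) x z → z = Finsupp.single 1 x := by
    intro z hz
    have hsub : z.support ⊆ {1} := by
      intro a ha
      rw [Finset.mem_singleton]
      exact hone a (hz.1 a ha)
    obtain ⟨b, hb⟩ : ∃ b, z = Finsupp.single 1 b := ⟨z 1, (Finsupp.support_subset_singleton.1 hsub)⟩
    have := hz.2
    rw [hb, Finsupp.sum_single_index (by simp)] at this
    rw [hb]
    congr 1
    omega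
  rw [huniq z hz] at hzc
  rw [huniq w hw] at hwc
  omega

/-- For every numerical semigroup `S ≠ ℕ` the infinity-delta set contains an element `≥ 3`; hence
no numerical semigroup has infinity-delta set `{1}` or `{1, 2}`, and the realization statement
(for every finite set `D` of positive integers with `1 ∈ D` there are numerical semigroups `S`
and `S'` with `Δ_0(S) = D` and `Δ_∞(S') = D`) is false. -/
theorem result :
    (∀ S : AddSubmonoid ℕ, IsNumSemi S → S ≠ ⊤ → ∃ d ∈ Delta linf S, 3 ≤ d) ∧
    (∀ S : AddSubmonoid ℕ, IsNumSemi S → Delta linf S ≠ {1} ∧ Delta linf S ≠ {1, 2}) ∧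
    ¬ (∀ D : Finset ℕ, (∀ d ∈ D, 0 < d) → 1 ∈ D →
      ∃ S S' : AddSubmonoid ℕ, IsNumSemi S ∧ IsNumSemi S' ∧
        Delta l0 S = (D : Set ℕ) ∧ Delta linf S' = (D : Set ℕ)) := by
  have h1 : ∀ S : AddSubmonoid ℕ, IsNumSemi S → S ≠ ⊤ → ∃ d ∈ Delta linf S, 3 ≤ d :=
    fun S hS hne => exists_three_le hS hne
  have h2 : ∀ S : AddSubmonoid ℕ, IsNumSemi S → Delta linf S ≠ {1} ∧ Delta linf S ≠ {1, 2} := by
    intro S hS
    by_cases hne : S = ⊤
    · rw [hne, delta_top]
      constructor
      · intro h
        have : (1 : ℕ) ∈ (∅ : Set ℕ) := by rw [h]; simp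
        exact this
      · intro h
        have : (1 : ℕ) ∈ (∅ : Set ℕ) := by rw [h]; simp
        exact this
    · obtain ⟨d, hd, hd3⟩ := h1 S hS hne
      constructor
      · intro h
        rw [h] at hd
        have : d = 1 := hd
        omega
      · intro h
        rw [h] at hd
        have : d = 1 ∨ d = 2 := hd
        omega
  refine ⟨h1, h2, ?_⟩
  intro h
  obtain ⟨_, S', _, hS', _, hD⟩ := h {1} (by simp) (by simp)
  exact (h2 S' hS').1 (by simpa using hD)

end Pool.Agent.Results.MP_86b878_co.NotAllDeltaSets
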